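import Pool.Agent.Helper23.EC.EGoals
import Pool.Agent.Helper74.EC_F.Z3
import Pool.Agent.Helper29.EC_F.L3

/-! MP_ecc237_nt, Part E, packet EB4. -/

set_option autoImplicit false

open MeasureTheory Filter Topology Set

namespace Pool.Agent.Helper78.EC.E_EB4

open EC237

/-- the square terms -/
noncomputable def f2 (m : ℤ) : ℝ := 1 / (m:ℝ) ^ 2

theorem sqZ : HasSum f2 (Real.pi ^ 2 / 3) := by
  have h := hasSum_zeta_two
  have h1 : HasSum (fun n : ℕ => f2 (n : ℤ)) (Real.pi ^ 2 / 6) := by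
    refine h.congr_fun ?_
    intro n
    simp [f2]
  have h2 : HasSum (fun n : ℕ => f2 (-((n : ℤ) + 1))) (Real.pi ^ 2 / 6) := by
    have h3 := (hasSum_nat_add_iff' 1).2 h
    simp only [Finset.range_one, Finset.sum_singleton, Nat.cast_zero] at h3
    norm_num at h3
    refine h3.congr_fun ?_
    intro n
    simp only [f2]
    push_cast
    rw [neg_sq]
    simp
  have h4 := HasSum.of_nat_of_neg_add_one h1 h2
  convert h4 using 1
  ring

theorem f2_neg (m : ℤ) : f2 (-m) = f2 m := by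
  simp [f2]

/-- multiples of `d` -/
theorem mulZ (d : ℤ) (hd : d ≠ 0) :
    HasSum (fun m : ℤ => if m % d = 0 then f2 m else 0) (Real.pi ^ 2 / 3 / (d:ℝ) ^ 2) := by
  have hinj : Function.Injective (fun m : ℤ => d * m) := fun a b h => mul_left_cancel₀ hd h
  have h := sqZ.div_const ((d:ℝ) ^ 2)
  have e : ((fun m : ℤ => if m % d = 0 then f2 m else 0) ∘ fun m : ℤ => d * m) =
      fun m => f2 m / (d:ℝ) ^ 2 := by
    funext m
    simp only [Function.comp, Int.mul_emod_right, if_true, f2]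
    push_cast
    rw [mul_pow, div_div]
    ring
  rw [← e] at h
  refine (hinj.hasSum_iff ?_).1 h
  intro x hx
  rw [if_neg]
  intro h0
  exact hx ⟨x / d, by simpa using Int.mul_ediv_cancel' (Int.dvd_of_emod_eq_zero h0)⟩

/-- the class sums of the squares -/
noncomputable def q2 (c : ℤ) (m : ℤ) : ℝ := if (m - c) % 6 = 0 then f2 m else 0

theorem q2_summable (c : ℤ) : Summable (q2 c) := by
  refine Summable.of_nonneg_of_le (fun m => ?_) (fun m => ?_) sqZ.summable
  · unfold q2 f2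
    split_ifs <;> positivity
  · unfold q2
    split_ifs
    · exact le_rfl
    · unfold f2; positivity

theorem q2_neg (c : ℤ) : HasSum (q2 (-c)) (∑' m, q2 c m) := by
  have h := (Equiv.neg ℤ).hasSum_iff.2 (q2_summable c).hasSum
  refine h.congr_fun ?_
  intro m
  simp only [Function.comp, Equiv.neg_apply, q2, f2_neg]
  have : (m - -c) % 6 = 0 ↔ (-m - c) % 6 = 0 := by omega
  simp only [this]

theorem q2_three : HasSum (q2 3) (Real.pi ^ 2 / 36) := by
  have h := (mulZ 3 (by norm_num)).sub (mulZ 6 (by norm_num))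
  have e : Real.pi ^ 2 / 3 / ((3:ℤ):ℝ) ^ 2 - Real.pi ^ 2 / 3 / ((6:ℤ):ℝ) ^ 2 =
      Real.pi ^ 2 / 36 := by
    push_cast
    ring
  rw [e] at h
  refine h.congr_fun ?_
  intro m
  unfold q2
  by_cases h3 : m % 3 = 0
  · by_cases h6 : m % 6 = 0
    · rw [if_neg (by omega), if_pos h3, if_pos h6, sub_self]
    · rw [if_pos (by omega), if_pos h3, if_neg h6, sub_zero]
  · rw [if_neg (by omega), if_neg h3, if_neg (by omega), sub_zero]

theorem q2_one_five : HasSum (fun m => q2 1 m + q2 5 m) (2 * (Real.pi ^ 2 / 9)) := by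
  have h := ((sqZ.sub (mulZ 2 (by norm_num))).sub (mulZ 3 (by norm_num))).add
    (mulZ 6 (by norm_num))
  have e : Real.pi ^ 2 / 3 - Real.pi ^ 2 / 3 / ((2:ℤ):ℝ) ^ 2 - Real.pi ^ 2 / 3 / ((3:ℤ):ℝ) ^ 2 +
      Real.pi ^ 2 / 3 / ((6:ℤ):ℝ) ^ 2 = 2 * (Real.pi ^ 2 / 9) := by
    push_cast
    ring
  rw [e] at h
  refine h.congr_fun ?_
  intro m
  unfold q2
  rcases (by omega : m % 6 = 0 ∨ m % 6 = 1 ∨ m % 6 = 2 ∨ m % 6 = 3 ∨ m % 6 = 4 ∨ m % 6 = 5) with
    h | h | h | h | h | h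
  · rw [if_neg (by omega), if_neg (by omega), if_pos (by omega), if_pos (by omega),
      if_pos (by omega)]
    ring
  · rw [if_pos (by omega), if_neg (by omega), if_neg (by omega), if_neg (by omega),
      if_neg (by omega)]
    ring
  · rw [if_neg (by omega), if_neg (by omega), if_pos (by omega), if_neg (by omega),
      if_neg (by omega)]
    ring
  · rw [if_neg (by omega), if_neg (by omega), if_neg (by omega), if_pos (by omega),
      if_neg (by omega)]
    ring
  · rw [if_neg (by omega), if_neg (by omega), if_pos (by omega), if_neg (by omega),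
      if_neg (by omega)]
    ring
  · rw [if_neg (by omega), if_pos (by omega), if_neg (by omega), if_neg (by omega),
      if_neg (by omega)]
    ring

theorem q2_five_eq : q2 5 = q2 (-1) := by
  funext m
  unfold q2
  have : (m - 5) % 6 = 0 ↔ (m - -1) % 6 = 0 := by omega
  simp only [this]

theorem q2_one : HasSum (q2 1) (Real.pi ^ 2 / 9) := by
  have h5 := q2_neg 1
  rw [← q2_five_eq] at h5
  have h1 := (q2_summable 1).hasSum
  have h := (h1.add h5).unique q2_one_five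
  have : ∑' m, q2 1 m = Real.pi ^ 2 / 9 := by linarith
  rw [this] at h1
  exact h1

theorem q2_five : HasSum (q2 5) (Real.pi ^ 2 / 9) := by
  have h5 := q2_neg 1
  rwa [← q2_five_eq, q2_one.tsum_eq] at h5

/-- the class sums of the cubes -/
noncomputable def q3 (c : ℤ) (m : ℤ) : ℝ := if (m - c) % 6 = 0 then 1 / (m:ℝ) ^ 3 else 0

theorem q3_one : HasSum (q3 1) eZ13 := by
  have h : HasSum (fun j : ℤ => 1 / (6 * (j:ℝ) + 1) ^ 3) (Real.sqrt 3 * Real.pi ^ 3 / 54) :=
    EC237.PF.PkZ3.thm EC237.PF.PkL3.thm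
  have hinj : Function.Injective (fun m : ℤ => 6 * m + 1) := fun a b h => by
    simpa using h
  have e : (q3 1 ∘ fun m : ℤ => 6 * m + 1) = fun j : ℤ => 1 / (6 * (j:ℝ) + 1) ^ 3 := by
    funext j
    simp only [Function.comp, q3]
    rw [if_pos (by omega)]
    push_cast
    rfl
  rw [← e] at h
  refine (hinj.hasSum_iff ?_).1 h
  intro x hx
  unfold q3
  rw [if_neg]
  intro h0
  exact hx ⟨x / 6, by show 6 * (x / 6) + 1 = x; omega⟩

theorem q3_five : HasSum (q3 5) (-eZ13) := by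
  have h := ((Equiv.neg ℤ).hasSum_iff.2 q3_one).neg
  refine h.congr_fun ?_
  intro m
  simp only [Function.comp, Equiv.neg_apply, q3]
  have : (m - 5) % 6 = 0 ↔ (-m - 1) % 6 = 0 := by omega
  simp only [this]
  split_ifs
  · push_cast
    have : (-(m:ℝ)) ^ 3 = -((m:ℝ) ^ 3) := by ring
    rw [this, div_neg, neg_neg]
  · simp

theorem uz0 (z : ℝ) (m : ℤ) : uz z 0 m = (((m:ℝ)⁻¹ : ℝ) : ℂ) := by
  unfold uz
  push_cast
  simp

theorem vz0 (z : ℝ) (m : ℤ) : vz z 0 m = (((m:ℝ)⁻¹ : ℝ) : ℂ) := by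
  unfold vz
  push_cast
  simp

theorem eU2 (z : ℝ) (c : ℤ) (v : ℝ) (h : HasSum (q2 c) v) : eU z c 0 2 = (v : ℂ) := by
  unfold eU
  rw [← h.tsum_eq, Complex.ofReal_tsum]
  refine tsum_congr fun m => ?_
  rw [uz0]
  unfold q2 f2
  split_ifs
  · push_cast
    rw [one_div, inv_pow]
  · simp

theorem eW2 (z : ℝ) (c : ℤ) (v : ℝ) (h : HasSum (q2 c) v) : eW z c 0 2 = (v : ℂ) := by
  unfold eW
  rw [← h.tsum_eq, Complex.ofReal_tsum]
  refine tsum_congr fun m => ?_
  rw [vz0]
  unfold q2 f2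
  split_ifs
  · push_cast
    rw [one_div, inv_pow]
  · simp

theorem eU3 (z : ℝ) (c : ℤ) (v : ℝ) (h : HasSum (q3 c) v) : eU z c 0 3 = (v : ℂ) := by
  unfold eU
  rw [← h.tsum_eq, Complex.ofReal_tsum]
  refine tsum_congr fun m => ?_
  rw [uz0]
  unfold q3
  split_ifs
  · push_cast
    rw [one_div, inv_pow]
  · simp

theorem eW3 (z : ℝ) (c : ℤ) (v : ℝ) (h : HasSum (q3 c) v) : eW z c 0 3 = (v : ℂ) := by
  unfold eW
  rw [← h.tsum_eq, Complex.ofReal_tsum]
  refine tsum_congr fun m => ?_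
  rw [vz0]
  unfold q3
  split_ifs
  · push_cast
    rw [one_div, inv_pow]
  · simp

theorem thm : EC237.EB4 := by
  intro z
  refine ⟨eU2 z 1 _ q2_one, eW2 z 1 _ q2_one, eW2 z 5 _ q2_five, eW2 z 3 _ q2_three,
    eU3 z 1 _ q3_one, ?_⟩
  have := eW3 z 5 _ q3_five
  rw [this]
  push_cast
  rfl

end Pool.Agent.Helper78.EC.E_EB4
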